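import Pool.Agent.N207.CF.Stm

/-!
# Project CF, part IRR: finite products of irreducible sets are irreducible
-/

set_option autoImplicit false
set_option linter.all false

open MvPolynomial

namespace Pool.Agent.N803.CF

open Pool.Agent.N207.CF

/-- substitution of constants -/
theorem eval_subst {τ σ : Type} (g : τ → MvPolynomial σ ℂ) (t : σ → ℂ) (P : MvPolynomial τ ℂ) :
    eval t (aeval g P) = eval (fun i => eval t (g i)) P := by
  induction P using MvPolynomial.induction_on with
  | C c => simp
  | add p q hp hq => rw [map_add, map_add, map_add, hp, hq]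
  | mul_X p i hp => rw [map_mul, map_mul, map_mul, hp, aeval_X, eval_X]

theorem irr_aux {E σ : Type} [DecidableEq E] (S : E → Set (σ → ℂ)) (hS : ∀ e, Irr (S e))
    (F : Finset E) : ∀ c : E × σ → ℂ, Irr {a : E × σ → ℂ | (∀ e ∈ F, (fun y => a (e, y)) ∈ S e) ∧
      ∀ e, e ∉ F → ∀ y, a (e, y) = c (e, y)} := by
  induction F using Finset.induction_on with
  | empty =>
    intro c P Q h
    have hc : c ∈ {a : E × σ → ℂ | (∀ e ∈ (∅ : Finset E), (fun y => a (e, y)) ∈ S e) ∧
      ∀ e, e ∉ (∅ : Finset E) → ∀ y, a (e, y) = c (e, y)} :=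
      ⟨fun e he => absurd he (Finset.notMem_empty e), fun _ _ _ => rfl⟩
    have hu : ∀ a ∈ {a : E × σ → ℂ | (∀ e ∈ (∅ : Finset E), (fun y => a (e, y)) ∈ S e) ∧
      ∀ e, e ∉ (∅ : Finset E) → ∀ y, a (e, y) = c (e, y)}, a = c := fun a ha => by
      funext ⟨e, y⟩
      exact ha.2 e (Finset.notMem_empty e) y
    rcases mul_eq_zero.1 (h c hc) with h1 | h1
    · exact Or.inl fun a ha => by rw [hu a ha]; exact h1
    · exact Or.inr fun a ha => by rw [hu a ha]; exact h1
  | insert e0 F he0 ih =>
    intro c P Q h
    by_contra hcon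
    push Not at hcon
    obtain ⟨⟨a1, ha1, h1⟩, ⟨a2, ha2, h2⟩⟩ := hcon
    -- the point `a` with the component `e0` replaced
    let up : (E × σ → ℂ) → (σ → ℂ) → E × σ → ℂ := fun a t q => if q.1 = e0 then t q.2 else a q
    let g : (E × σ → ℂ) → E × σ → MvPolynomial σ ℂ := fun a q => if q.1 = e0 then X q.2 else C (a q)
    have hg : ∀ a t R, eval t (aeval (g a) R) = eval (up a t) R := by
      intro a t R
      rw [eval_subst]
      congr 2
      funext q
      by_cases hq : q.1 = e0
      · simp [g, up, hq]
      · simp [g, up, hq]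
    have hup : ∀ a ∈ {a : E × σ → ℂ | (∀ e ∈ insert e0 F, (fun y => a (e, y)) ∈ S e) ∧
        ∀ e, e ∉ insert e0 F → ∀ y, a (e, y) = c (e, y)}, ∀ t ∈ S e0,
        up a t ∈ {a : E × σ → ℂ | (∀ e ∈ F, (fun y => a (e, y)) ∈ S e) ∧
          ∀ e, e ∉ F → ∀ y, a (e, y) = up c t (e, y)} := by
      intro a ha t ht
      refine ⟨fun e he => ?_, fun e he y => ?_⟩
      · have hne : e ≠ e0 := fun h => he0 (h ▸ he)
        have : (fun y => up a t (e, y)) = fun y => a (e, y) := by
          funext y
          simp [up, hne]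
        rw [this]
        exact ha.1 e (Finset.mem_insert_of_mem he)
      · by_cases hee : e = e0
        · simp [up, hee]
        · simp only [up, hee, if_false]
          exact ha.2 e (by simp [hee, he]) y
    have hsub : ∀ t ∈ S e0, ∀ a ∈ {a : E × σ → ℂ | (∀ e ∈ F, (fun y => a (e, y)) ∈ S e) ∧
          ∀ e, e ∉ F → ∀ y, a (e, y) = up c t (e, y)},
        a ∈ {a : E × σ → ℂ | (∀ e ∈ insert e0 F, (fun y => a (e, y)) ∈ S e) ∧
          ∀ e, e ∉ insert e0 F → ∀ y, a (e, y) = c (e, y)} := by
      intro t ht a ha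
      refine ⟨fun e he => ?_, fun e he y => ?_⟩
      · rcases Finset.mem_insert.1 he with rfl | he'
        · have : (fun y => a (e, y)) = t := by
            funext y
            rw [ha.2 e he0 y]
            simp [up]
          rw [this]
          exact ht
        · exact ha.1 e he'
      · have he1 : e ≠ e0 := fun h => he (by simp [h])
        have he2 : e ∉ F := fun h => he (Finset.mem_insert_of_mem h)
        rw [ha.2 e he2 y]
        simp [up, he1]
    have key : ∀ t ∈ S e0, eval t (aeval (g a1) P) * eval t (aeval (g a2) Q) = 0 := by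
      intro t ht
      rw [hg, hg]
      rcases ih (up c t) P Q (fun a ha => h a (hsub t ht a ha)) with h3 | h3
      · rw [h3 _ (hup a1 ha1 t ht), zero_mul]
      · rw [h3 _ (hup a2 ha2 t ht), mul_zero]
    have hself : ∀ a : E × σ → ℂ, up a (fun y => a (e0, y)) = a := by
      intro a
      funext ⟨e, y⟩
      by_cases hee : e = e0
      · simp [up, hee]
      · simp [up, hee]
    rcases hS e0 _ _ key with h3 | h3
    · apply h1
      have := h3 (fun y => a1 (e0, y)) (ha1.1 e0 (Finset.mem_insert_self _ _))
      rwa [hg, hself] at this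
    · apply h2
      have := h3 (fun y => a2 (e0, y)) (ha2.1 e0 (Finset.mem_insert_self _ _))
      rwa [hg, hself] at this

theorem irr : Pool.Agent.N207.CF.StmIrr := by
  classical
  intro E σ _ S hS
  haveI := Fintype.ofFinite E
  have := irr_aux S hS Finset.univ (fun _ => 0)
  convert this using 2
  funext a
  simp

end Pool.Agent.N803.CF
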